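import Pool.Agent.Helper76.TC2.Goals

/-!
# Project TC2 (MP_ccd65d_gt), packet G1: parametrization of one chain by its length
-/

set_option autoImplicit false

open Set

namespace Pool.Agent.Helper12.TC2.G1

open Pool.Agent.Helper76.TC2

theorem t : S_G1 := by
  intro n d C η D x y hη hD hd hC ⟨k, z, hz0, hzk, hstep, hsum⟩
  set S : ℕ → ℝ := fun i => ∑ j ∈ Finset.range i, d (z j) (z (j + 1)) with hS
  have hSs : ∀ i, S (i + 1) = S i + d (z i) (z (i + 1)) := fun i => Finset.sum_range_succ _ _
  have hS0 : S 0 = 0 := Finset.sum_range_zero _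
  have hmono : Monotone S := monotone_nat_of_le_succ fun i => by
    rw [hSs]; linarith [hd (z i) (z (i + 1))]
  have hinc : ∀ i < k, S (i + 1) ≤ S i + C * η := fun i hi => by
    rw [hSs]; linarith [hC _ _ (hstep i hi)]
  have hCη : 0 ≤ C * η := by
    have h := hC x x (by rw [sub_self, norm_zero]; exact hη.le)
    linarith [hd x x]
  have hsub : ∀ a b, a ≤ b → b ≤ k → ∀ L, S b - S a ≤ L → Chn n d η L (z a) (z b) := by
    intro a b hab hbk L hL
    obtain ⟨m, rfl⟩ := Nat.exists_eq_add_of_le hab
    refine ⟨m, fun j => z (a + j), rfl, rfl, fun i hi => hstep (a + i) (by omega), ?_⟩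
    have h1 : S (a + m) = S a + ∑ j ∈ Finset.range m, d (z (a + j)) (z (a + j + 1)) :=
      Finset.sum_range_add _ _ _
    have h2 : ∑ j ∈ Finset.range m, d (z (a + j)) (z (a + (j + 1))) = S (a + m) - S a := by
      rw [h1]; simp [add_assoc]
    exact h2.le.trans hL
  classical
  have hex : ∀ t : ℝ, ∃ i, i = k ∨ t ≤ S i := fun t => ⟨k, Or.inl rfl⟩
  have hik : ∀ t, Nat.find (hex t) ≤ k := fun t => Nat.find_min' _ (Or.inl rfl)
  have hspec : ∀ t, Nat.find (hex t) = k ∨ t ≤ S (Nat.find (hex t)) := fun t =>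
    Nat.find_spec (hex t)
  refine ⟨fun t => z (Nat.find (hex t)), ?_, ?_, ?_⟩
  · have h0 : Nat.find (hex 0) = 0 := by
      rw [Nat.find_eq_zero]; right; rw [hS0]
    show z (Nat.find (hex 0)) = x
    rw [h0]; exact hz0
  · rw [← hzk]
    refine hsub _ _ (hik D) le_rfl _ ?_
    rcases hspec D with h | h
    · rw [h]; linarith
    · have : S k ≤ D + η := hsum
      linarith
  · intro s t _ hst _
    have hle : Nat.find (hex s) ≤ Nat.find (hex t) := by
      refine Nat.find_min' _ ?_
      rcases hspec t with h | h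
      · exact Or.inl h
      · exact Or.inr (hst.trans h)
    refine hsub _ _ hle (hik t) _ ?_
    rcases Nat.eq_or_lt_of_le hle with h | h
    · rw [h]; linarith
    · have h1 : s ≤ S (Nat.find (hex s)) := by
        rcases hspec s with h2 | h2
        · have := hik t
          omega
        · exact h2
      obtain ⟨m, hm⟩ : ∃ m, Nat.find (hex t) = m + 1 := ⟨Nat.find (hex t) - 1, by omega⟩
      have h3 := Nat.find_min (hex t) (m := m) (by omega)
      push Not at h3
      have h4 := hinc m (by have := hik t; omega)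
      rw [hm]
      linarith [h3.2]

end Pool.Agent.Helper12.TC2.G1
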